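import Pool.Agent.MDSL.Main

/-!
# Limits to the continuation of `F_M`, and to the error terms of the moments

All definitions are in `Pool/Agent/MDS/Defs.lean`, `Pool/Agent/MDS/ReachDefs.lean` and
`Pool/Agent/MDSM/Defs.lean`.
-/

set_option autoImplicit false

open Pool.Agent.MDS Pool.Agent.MDSM

namespace Pool.Agent.Results.MP_fed7ff_nt.ContinuationLimit

/-- Let `k, M ≥ 1`. If `F_M` extends, with polynomial bounds, to a tube domain containing the real
point `x = (σ_1, ..., σ_k; c)`, then `c ≥ 1/4 + ∑ max(0, 1/2 - σ_j)`, and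
`c ≥ Re ρ / 2 + ∑ max(0, 1/2 - σ_j)` for each zero `ρ` of the zeta function with `Re ρ > 0`. The same
inequalities hold for the exponent `c` of the error term in each asymptotic formula for the smoothed
shifted moments with real parts `σ_1, ..., σ_k`, uniform in the shifts or on average over them. -/
theorem result (k M : ℕ) (hk : 1 ≤ k) (hM : 1 ≤ M) :
    ∀ (σ : Fin k → ℝ) (c : ℝ), (ExtendsTo k M (σ, c) ∨ Asymp k M σ c ∨ MeanAsymp k M σ c) →
      1 / 4 + ∑ j, max 0 (1 / 2 - σ j) ≤ c ∧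
      ∀ ρ : ℂ, riemannZeta ρ = 0 → 0 < ρ.re → ρ.re / 2 + ∑ j, max 0 (1 / 2 - σ j) ≤ c := by
  intro σ c h
  have key : ∀ ρ : ℂ, riemannZeta ρ = 0 → 0 < ρ.re →
      ρ.re / 2 + ∑ j, max 0 (1 / 2 - σ j) ≤ c := by
    intro ρ hρ hρ0
    rcases h with h | h
    · exact Pool.Agent.MDSL.limit_max hk hM h hρ hρ0
    · exact Pool.Agent.MDSL.limit_mean hk hM h hρ hρ0
  refine ⟨?_, key⟩
  obtain ⟨ρ, hρ, hρ0⟩ := Pool.Agent.MDSL.exists_zero
  have := key ρ hρ (by linarith)
  linarith

end Pool.Agent.Results.MP_fed7ff_nt.ContinuationLimit
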